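import Pool.Agent.R695.DaoMain

/-!
MP_c61c44_al, Q1 (negated form).  There is a two-dimensional Cohen-Macaulay local ring with
infinite residue field whose maximal ideal has a minimal reduction `I` with reduction number `5`
and third Dao number `6`.

The ring is the localisation at the origin of the affine semigroup ring `ℚ[S]`, where `S` is the
Cohen-Macaulay closure of the semigroup of the projective monomial curve
`{0, 3, 18, 21, 27, 35}`; `I` is generated by the two monomials of degree one at the ends.
-/

namespace Pool.Agent.Results.MP_c61c44_al.ThirdDao

open Pool.Agent.R695.Dao IsLocalRing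

theorem result :
    ∃ (R : Type) (_ : CommRing R) (_ : IsLocalRing R), IsNoetherianRing R ∧
      Infinite (ResidueField R) ∧ IsCMLocal R ∧ ringKrullDim R = 2 ∧
      ∃ I : Ideal R, IsMinimalReduction I ∧ IsReductionNumber I 5 ∧ IsThirdDaoNumber I 6 :=
  ⟨Rl, inferInstance, inferInstance, inferInstance, inf_res, cm, dim_two, J, min_red, red_five,
    dao_six⟩

end Pool.Agent.Results.MP_c61c44_al.ThirdDao
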